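import Pool.Agent.H87.SN.Targets

/-!
Row IBP of the board snk_modules: integration by parts against a function with compact support.
-/

namespace Pool.Agent.H33.SN

open Pool.Agent.H87.SN
open MeasureTheory Metric Set Filter Topology
open scoped ContDiff RealInnerProductSpace

theorem cont_smul {n : ℕ} {F : Type*} [NormedAddCommGroup F] [NormedSpace ℝ F] {U : Set (E n)}
    (hU : IsOpen U) (φ : E n → ℝ) (ψ : E n → F) (hφ : Continuous φ) (hs : tsupport φ ⊆ U)
    (hψ : ContinuousOn ψ U) : Continuous fun x => φ x • ψ x := by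
  rw [continuous_iff_continuousAt]
  intro x
  by_cases hx : x ∈ U
  · exact hφ.continuousAt.smul (hψ.continuousAt (hU.mem_nhds hx))
  · have h1 : x ∈ (tsupport φ)ᶜ := fun h => hx (hs h)
    have h2 : (fun x => φ x • ψ x) =ᶠ[𝓝 x] fun _ => 0 := by
      filter_upwards [(isClosed_tsupport φ).isOpen_compl.mem_nhds h1] with y hy
      rw [image_eq_zero_of_notMem_tsupport hy, zero_smul]
    exact (continuousAt_congr h2).2 continuousAt_const

theorem int_smul {n : ℕ} {F : Type*} [NormedAddCommGroup F] [NormedSpace ℝ F] {U : Set (E n)}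
    (hU : IsOpen U) (φ : E n → ℝ) (ψ : E n → F) (hφ : Continuous φ) (hc : HasCompactSupport φ)
    (hs : tsupport φ ⊆ U) (hψ : ContinuousOn ψ U) : Integrable fun x => φ x • ψ x :=
  (cont_smul hU φ ψ hφ hs hψ).integrable_of_hasCompactSupport hc.smul_right

theorem ibp {n : ℕ} {F : Type*} [NormedAddCommGroup F] [NormedSpace ℝ F] {U : Set (E n)}
    (a : E n → ℝ) (b : E n → F) (v : E n) (hU : IsOpen U) (ha : ContDiff ℝ 1 a)
    (hc : HasCompactSupport a) (hs : tsupport a ⊆ U) (hb : ContDiffOn ℝ 1 b U) :
    ∫ x, a x • fderiv ℝ b x v = - ∫ x, (fderiv ℝ a x v) • b x := by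
  have h1 : Continuous fun x => fderiv ℝ a x v :=
    (ha.continuous_fderiv (by norm_num)).clm_apply continuous_const
  have h2 : HasCompactSupport fun x => fderiv ℝ a x v := hc.fderiv_apply ℝ v
  have h3 : tsupport (fun x => fderiv ℝ a x v) ⊆ U := by
    refine Subset.trans ?_ hs
    exact tsupport_fderiv_apply_subset ℝ v
  have h4 : ContinuousOn (fun x => fderiv ℝ b x v) U := by
    have h5 := hb.continuousOn_fderiv_of_isOpen hU le_rfl
    exact h5.clm_apply continuousOn_const
  refine integral_smul_fderiv_eq_neg_fderiv_smul_of_integrable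
    (int_smul hU _ b h1 h2 h3 hb.continuousOn) (int_smul hU a _ ha.continuous hc hs h4)
    (int_smul hU a b ha.continuous hc hs hb.continuousOn)
    (fun x _ => (ha.differentiable (by norm_num)).differentiableAt) (fun x hx => ?_)
  exact (hb.differentiableOn (by norm_num)).differentiableAt (hU.mem_nhds (hs hx))

theorem pf_IBP : T_IBP :=
  ⟨fun _ _ _ a b v hU ha hc hs hb => ibp a b v hU ha hc hs hb,
    fun _ _ a b v hU ha hc hs hb => ibp a b v hU ha hc hs hb⟩

end Pool.Agent.H33.SN
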